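import Mathlib

namespace Pool.Agent.R688.NP

/-- Polycyclic groups: the trivial group is polycyclic, and a group with a polycyclic normal
subgroup and cyclic quotient is polycyclic. -/
inductive IsPolycyclic : (G : Type) → [Group G] → Prop
  | triv (G : Type) [Group G] (h : Subsingleton G) : IsPolycyclic G
  | ext (G : Type) [Group G] (N : Subgroup G) [N.Normal] (h : IsPolycyclic N)
      (hc : IsCyclic (G ⧸ N)) : IsPolycyclic G

/-- Polycyclic-by-finite groups. -/
def PolyByFin (G : Type) [Group G] : Prop :=
  ∃ (P : Subgroup G) (_ : P.Normal), IsPolycyclic P ∧ Finite (G ⧸ P)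

/-- Nilpotent-by-(polycyclic-by-finite) groups. -/
def NilPolyByFin (G : Type) [Group G] : Prop :=
  ∃ (K : Subgroup G) (_ : K.Normal), Group.IsNilpotent K ∧ PolyByFin (G ⧸ K)

/-- Every infinite subset contains two different elements `x`, `y` such that
`⟨x, x^y⟩` is nilpotent-by-(polycyclic-by-finite). -/
def InfStarNP (G : Type) [Group G] : Prop :=
  ∀ S : Set G, S.Infinite → ∃ x ∈ S, ∃ y ∈ S, x ≠ y ∧
    NilPolyByFin (Subgroup.closure ({x, y⁻¹ * x * y} : Set G))

end Pool.Agent.R688.NP
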