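import Mathlib
import Pool.Agent.R688.NP.Defs

namespace Pool.Agent.R688.NP

lemma finite_of_cyclic {C : Type} [Group C] (hC : IsCyclic C) (e : ℕ) (he : 0 < e)
    (T : Subgroup C) (hT : ∀ t ∈ T, t ^ e = 1) : Finite T := by
  obtain ⟨t, ht⟩ := (inferInstance : IsCyclic T)
  have h1 : IsOfFinOrder t := isOfFinOrder_iff_pow_eq_one.mpr
    ⟨e, he, by apply Subtype.ext; simpa using hT t t.2⟩
  have h2 : (Subgroup.zpowers t : Set T).Finite := by
    rw [finite_zpowers]; exact h1
  have h3 : (Set.univ : Set T) ⊆ (Subgroup.zpowers t : Set T) := fun z _ => ht z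
  exact Set.finite_univ_iff.mp (h2.subset h3)

lemma poly_finite (e : ℕ) (he : 0 < e) {G : Type} [Group G] (h : IsPolycyclic G) :
    ∀ S : Subgroup G, (∀ s ∈ S, s ^ e = 1) → Finite S := by
  induction h with
  | triv G hG => intro S _; infer_instance
  | ext G N _ hc ih =>
    intro S hS
    rw [MonoidHom.finite_iff_finite_ker_range ((QuotientGroup.mk' N).comp S.subtype)]
    constructor
    · have h1 : Finite (S.subgroupOf N) := by
        apply ih
        intro s hs
        apply Subtype.ext
        simpa using hS s hs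
      have hinj : Function.Injective (fun z : ((QuotientGroup.mk' N).comp S.subtype).ker =>
          (⟨⟨(z : S), by
            have := z.2
            rw [MonoidHom.mem_ker] at this
            exact (QuotientGroup.eq_one_iff _).mp this⟩, (z : S).2⟩ : S.subgroupOf N)) := by
        intro a b hab
        apply Subtype.ext
        apply Subtype.ext
        have h2 := congrArg (fun w : S.subgroupOf N => ((w : N) : G)) hab
        exact h2
      exact Finite.of_injective _ hinj
    · apply finite_of_cyclic hc e he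
      rintro _ ⟨s, rfl⟩
      rw [← map_pow]
      have : s ^ e = 1 := by apply Subtype.ext; simpa using hS s s.2
      rw [this, map_one]

lemma polyByFin_finite (e : ℕ) (he : 0 < e) {Q : Type} [Group Q] (h : PolyByFin Q)
    (S : Subgroup Q) (hS : ∀ s ∈ S, s ^ e = 1) : Finite S := by
  obtain ⟨P, hP, hpoly, hfin⟩ := h
  rw [MonoidHom.finite_iff_finite_ker_range ((QuotientGroup.mk' P).comp S.subtype)]
  constructor
  · have h1 : Finite (S.subgroupOf P) := by
      apply poly_finite e he hpoly
      intro s hs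
      apply Subtype.ext
      simpa using hS s hs
    have hinj : Function.Injective (fun z : ((QuotientGroup.mk' P).comp S.subtype).ker =>
        (⟨⟨(z : S), by
          have := z.2
          rw [MonoidHom.mem_ker] at this
          exact (QuotientGroup.eq_one_iff _).mp this⟩, (z : S).2⟩ : S.subgroupOf P)) := by
      intro a b hab
      apply Subtype.ext
      apply Subtype.ext
      have h2 := congrArg (fun w : S.subgroupOf P => ((w : P) : Q)) hab
      exact h2
    exact Finite.of_injective _ hinj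
  · infer_instance

lemma poly_of_cyclic (G : Type) [Group G] (h : IsCyclic G) : IsPolycyclic G := by
  refine IsPolycyclic.ext G ⊥ (IsPolycyclic.triv _ inferInstance) ?_
  exact isCyclic_of_surjective (QuotientGroup.mk' (⊥ : Subgroup G)) (QuotientGroup.mk'_surjective _)

lemma polyByFin_of (Q : Type) [Group Q] (B : Subgroup Q) (hB : B.Normal) (hfin : Finite B) (q : Q)
    (hq : ∀ z : Q, ∃ b ∈ B, ∃ j : ℤ, z = b * q ^ j) : PolyByFin Q := by
  have hMA : Finite (MulAut B) := Finite.of_injective _ MulEquiv.toEquiv_injective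
  obtain ⟨e, he, he1⟩ := isOfFinOrder_iff_pow_eq_one.mp
    (isOfFinOrder_of_finite (MulAut.conjNormal q : MulAut B))
  have hcomm : ∀ b ∈ B, q ^ e * b = b * q ^ e := by
    intro b hb
    have h4 : (MulAut.conjNormal (q ^ e) : MulAut B) ⟨b, hb⟩ = ⟨b, hb⟩ := by
      rw [map_pow, he1]; rfl
    have h5 := congrArg Subtype.val h4
    rw [MulAut.conjNormal_apply] at h5
    simp only at h5
    rwa [mul_inv_eq_iff_eq_mul] at h5
  have hcen : ∀ z : Q, q ^ e * z = z * q ^ e := by
    intro z
    obtain ⟨b, hb, j, rfl⟩ := hq z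
    have h1 : q ^ e * q ^ j = q ^ j * q ^ e := by
      rw [← zpow_natCast, ← zpow_add, ← zpow_add, add_comm]
    rw [← mul_assoc, hcomm b hb, mul_assoc, h1, mul_assoc]
  have hnorm : (Subgroup.zpowers (q ^ e)).Normal := by
    constructor
    intro n hn g
    obtain ⟨k, rfl⟩ := hn
    have h1 : Commute g (q ^ e) := (hcen g).symm
    have h2 : Commute g ((q ^ e) ^ k) := h1.zpow_right k
    have h3 : g * (q ^ e) ^ k * g⁻¹ = (q ^ e) ^ k := by
      rw [h2.eq, mul_assoc, mul_inv_cancel, mul_one]
    simp only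
    rw [h3]
    exact ⟨k, rfl⟩
  refine ⟨Subgroup.zpowers (q ^ e), hnorm, poly_of_cyclic _ inferInstance, ?_⟩
  have hsurj : Function.Surjective (fun p : B × Fin e =>
      (QuotientGroup.mk ((p.1 : Q) * q ^ (p.2 : ℕ)) : Q ⧸ Subgroup.zpowers (q ^ e))) := by
    intro z
    obtain ⟨z, rfl⟩ := QuotientGroup.mk_surjective z
    obtain ⟨b, hb, j, rfl⟩ := hq z
    have hepos : (0 : ℤ) < e := by exact_mod_cast he
    have h0 : 0 ≤ j % (e : ℤ) := Int.emod_nonneg _ hepos.ne'
    have h1 : j % (e : ℤ) < e := Int.emod_lt_of_pos _ hepos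
    refine ⟨⟨⟨b, hb⟩, ⟨(j % (e : ℤ)).toNat, by omega⟩⟩, ?_⟩
    simp only
    rw [QuotientGroup.eq]
    refine ⟨j / (e : ℤ), ?_⟩
    simp only
    have h2 : ((q ^ (j % (e : ℤ)).toNat : Q)) = q ^ (j % (e : ℤ)) := by
      rw [← zpow_natCast, Int.toNat_of_nonneg h0]
    rw [h2, mul_inv_rev, ← zpow_natCast, ← zpow_mul]
    have h3 : (q ^ (j % (e : ℤ)))⁻¹ * b⁻¹ * (b * q ^ j) = q ^ (j - j % (e : ℤ)) := by
      rw [sub_eq_neg_add, zpow_add, zpow_neg]; group
    rw [h3]
    congr 1
    have := Int.emod_add_mul_ediv j (e : ℤ)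
    linarith
  exact Finite.of_surjective _ hsurj

end Pool.Agent.R688.NP
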