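import Mathlib
import Pool.Agent.R688.EN.Star

namespace Pool.Agent.R688.NP

open Pool.Agent.R688.EN

/-- The sign character. -/
def sgn (a : ZMod 2) : ZMod 3 := if a = 0 then 1 else -1

lemma sgn_add (a b : ZMod 2) : sgn (a + b) = sgn a * sgn b := by
  revert a b; decide

lemma sgn_zero : sgn 0 = 1 := rfl

lemma sgn_neg (a : ZMod 2) : sgn (-a) = sgn a := by
  revert a; decide

lemma sgn_sq (a : ZMod 2) : sgn a * sgn a = 1 := by
  revert a; decide

/-- The big group. -/
@[ext] structure HH where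
  /-- component in the permutation-like module -/
  m : ℤ × ℤ → ZMod 3
  /-- component in the group ring -/
  v : V
  /-- component in the top group -/
  n : ℤ × ℤ

noncomputable instance : Mul HH :=
  ⟨fun x y => ⟨fun g => x.m g + sgn (TT x.v g) * y.m (g - x.n), x.v + tr x.n * y.v, x.n + y.n⟩⟩

noncomputable instance : One HH := ⟨⟨0, 0, 0⟩⟩

noncomputable instance : Inv HH :=
  ⟨fun x => ⟨fun g => -(sgn (TT x.v (g + x.n)) * x.m (g + x.n)), -(tr (-x.n) * x.v), -x.n⟩⟩

@[simp] lemma mul_v (x y : HH) : (x * y).v = x.v + tr x.n * y.v := rfl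
@[simp] lemma mul_n (x y : HH) : (x * y).n = x.n + y.n := rfl
lemma mul_m (x y : HH) (g : ℤ × ℤ) :
    (x * y).m g = x.m g + sgn (TT x.v g) * y.m (g - x.n) := rfl
@[simp] lemma one_v : (1 : HH).v = 0 := rfl
@[simp] lemma one_n : (1 : HH).n = 0 := rfl
@[simp] lemma one_m (g : ℤ × ℤ) : (1 : HH).m g = 0 := rfl
@[simp] lemma inv_v (x : HH) : (x⁻¹).v = -(tr (-x.n) * x.v) := rfl
@[simp] lemma inv_n (x : HH) : (x⁻¹).n = -x.n := rfl
lemma inv_m (x : HH) (g : ℤ × ℤ) :
    (x⁻¹).m g = -(sgn (TT x.v (g + x.n)) * x.m (g + x.n)) := rfl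

noncomputable instance : Group HH := by
  refine Group.ofLeftAxioms ?_ ?_ ?_
  · intro x y z
    ext1
    · funext g
      simp only [mul_m, mul_v, mul_n, TT_add, TT_tr, sgn_add]
      have e1 : g - (x.n + y.n) = g - x.n - y.n := by abel
      rw [e1]
      ring
    · simp only [mul_v, mul_n, tr_add]; ring
    · simp only [mul_n]; abel
  · intro x
    ext1
    · funext g
      simp [mul_m, TT_zero, sgn_zero]
    · simp [tr_zero]
    · simp
  · intro x
    ext1
    · funext g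
      simp only [mul_m, inv_m, inv_v, inv_n, one_m, TT_neg, TT_tr, sgn_neg]
      have e1 : g - -x.n = g + x.n := by abel
      rw [e1]
      ring
    · simp
    · simp

/-- The projection to the top group. -/
noncomputable def nHom : HH →* Multiplicative (ℤ × ℤ) where
  toFun x := Multiplicative.ofAdd x.n
  map_one' := rfl
  map_mul' _ _ := rfl

lemma zpow_n (x : HH) (j : ℤ) : (x ^ j).n = j • x.n := by
  have h : nHom (x ^ j) = nHom x ^ j := map_zpow nHom x j
  have h2 := congrArg Multiplicative.toAdd h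
  simpa [nHom] using h2

/-- Conjugation of an element of the base. -/
lemma conj_v (q h : HH) (hn : h.n = 0) : (q * h * q⁻¹).v = tr q.n * h.v := by
  rw [mul_v, mul_v, mul_n, hn, inv_v, add_zero, mul_neg, ← mul_assoc, ← tr_add, add_neg_cancel,
    tr_zero]
  ring

lemma conj_n (q h : HH) (hn : h.n = 0) : (q * h * q⁻¹).n = 0 := by
  rw [mul_n, mul_n, hn, inv_n]; simp

/-- The lines through a finite set. -/
def LL (F : Finset (ℤ × ℤ)) (n : ℤ × ℤ) : Set (ℤ × ℤ) := {p | ∃ c ∈ F, ∃ j : ℤ, p = c + j • n}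

lemma LL_shift {F : Finset (ℤ × ℤ)} {n p : ℤ × ℤ} (hp : p ∈ LL F n) (j : ℤ) :
    p - j • n ∈ LL F n := by
  obtain ⟨c, hc, i, rfl⟩ := hp
  exact ⟨c, hc, i - j, by rw [sub_smul]; abel⟩

/-- The elements of `⟨x, x^y⟩` have this shape. -/
def EE (F F' : Finset (ℤ × ℤ)) (x g : HH) : Prop :=
  (∃ j : ℤ, g.n = j • x.n ∧ g.v - (x ^ j).v ∈ UU F x.n) ∧
    (∀ p, g.m p ≠ 0 → p ∈ LL F' x.n)

lemma EE_closure (x z : HH) (F' : Finset (ℤ × ℤ)) (hz : z.n = x.n)
    (hF1 : ∀ p, x.m p ≠ 0 → p ∈ F') (hF2 : ∀ p, z.m p ≠ 0 → p ∈ F') (g : HH)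
    (hg : g ∈ Subgroup.closure ({x, z} : Set HH)) :
    EE (z.v - x.v).coeff.support F' x g := by
  set F := (z.v - x.v).coeff.support with hF
  induction hg using Subgroup.closure_induction with
  | mem g hg =>
    rcases hg with rfl | rfl
    · refine ⟨⟨1, by simp, by rw [zpow_one, sub_self]; exact zero_mem _⟩, ?_⟩
      intro p hp
      exact ⟨p, hF1 p hp, 0, by simp⟩
    · refine ⟨⟨1, by simp [hz], ?_⟩, ?_⟩
      · rw [zpow_one, mem_UU]
        intro h hh
        exact ⟨h, by rw [hF, Finsupp.mem_support_iff]; exact hh, 0, by simp⟩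
      · intro p hp
        exact ⟨p, hF2 p hp, 0, by simp⟩
  | one => exact ⟨⟨0, by simp, by simp⟩, fun p hp => absurd (one_m p) hp⟩
  | mul g h _ _ ihg ihh =>
    obtain ⟨⟨i, hi1, hi2⟩, hi3⟩ := ihg
    obtain ⟨⟨j, hj1, hj2⟩, hj3⟩ := ihh
    refine ⟨⟨i + j, by rw [mul_n, hi1, hj1, add_smul], ?_⟩, ?_⟩
    · rw [zpow_add, mul_v, mul_v, zpow_n, hi1]
      have e : g.v + tr (i • x.n) * h.v - ((x ^ i).v + tr (i • x.n) * (x ^ j).v) =
          (g.v - (x ^ i).v) + tr (i • x.n) * (h.v - (x ^ j).v) := by ring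
      rw [e]
      exact add_mem hi2 (UU_tr hj2 i)
    · intro p hp
      rw [mul_m] at hp
      by_cases h1 : g.m p = 0
      · have h2 : h.m (p - g.n) ≠ 0 := by
          intro h0; rw [h1, h0] at hp; simp at hp
        have h3 := hj3 _ h2
        rw [hi1] at h3
        have h4 := LL_shift h3 (-i)
        have e5 : p - i • x.n - (-i) • x.n = p := by rw [neg_smul]; abel
        rwa [e5] at h4
      · exact hi3 p h1
  | inv g _ ih =>
    obtain ⟨⟨i, hi1, hi2⟩, hi3⟩ := ih
    refine ⟨⟨-i, by rw [inv_n, hi1, neg_smul], ?_⟩, ?_⟩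
    · rw [zpow_neg, inv_v, inv_v, zpow_n, hi1]
      have e : -(tr (-(i • x.n)) * g.v) - -(tr (-(i • x.n)) * (x ^ i).v) =
          -(tr ((-i) • x.n) * (g.v - (x ^ i).v)) := by rw [neg_smul]; ring
      rw [e]
      exact neg_mem (UU_tr hi2 (-i))
    · intro p hp
      rw [inv_m] at hp
      have h2 : g.m (p + g.n) ≠ 0 := by
        intro h0; rw [h0] at hp; simp at hp
      have h3 := hi3 _ h2
      rw [hi1] at h3
      have h4 := LL_shift h3 i
      have e5 : p + i • x.n - i • x.n = p := by abel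
      rwa [e5] at h4

/-- Periodicity of `T` on lines. -/
lemma exists_period2 (F F' : Finset (ℤ × ℤ)) (n : ℤ × ℤ) :
    ∃ N : ℕ, 0 < N ∧ ∀ b ∈ UU F n, ∀ p ∈ LL F' n, TT b (p + (N : ℤ) • n) = TT b p := by
  classical
  by_cases hn : n = 0
  · refine ⟨1, one_pos, ?_⟩
    intro b _ p _
    rw [hn, smul_zero, add_zero]
  · obtain ⟨t, ht⟩ := exists_period (F ∪ F') n hn
    refine ⟨2 ^ t, by positivity, ?_⟩
    intro b hb p hp
    unfold TT
    apply Finsupp.sum_congr
    intro h hh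
    rw [Finsupp.mem_support_iff] at hh
    obtain ⟨c, hc, j, hj⟩ := hb h hh
    obtain ⟨c', hc', j', hj'⟩ := hp
    congr 1
    have e1 : h - (p + ((2 ^ t : ℕ) : ℤ) • n) = (c - c') + (j - j' - 2 ^ t) • n := by
      rw [hj, hj', sub_smul, sub_smul]; push_cast; abel
    have e2 : h - p = (c - c') + ((j - j' - 2 ^ t) + 2 ^ t) • n := by
      rw [hj, hj', sub_add_cancel, sub_smul]; abel
    rw [e1, e2]
    exact (ht c' (Finset.mem_union_right _ hc') c (Finset.mem_union_left _ hc) _).symm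

end Pool.Agent.R688.NP
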