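import Mathlib
import Pool.Agent.R688.NP.Grp
import Pool.Agent.R688.NP.Gen

namespace Pool.Agent.R688.NP

open Pool.Agent.R688.EN (V tr TT UU tr_add tr_zero tr_neg_mul TT_add TT_neg TT_tr TT_zero UU_tr mem_UU)

section main

variable (H : Type) [Group H] (ι : H →* HH) (x : HH) (F' : Finset (ℤ × ℤ))

/-- The abelian normal subgroup. -/
noncomputable def KK : Subgroup H where
  carrier := {h | (ι h).n = 0 ∧ ∀ p ∈ LL F' x.n, TT (ι h).v p = 0}
  one_mem' := by
    refine ⟨by rw [map_one]; rfl, fun p _ => ?_⟩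
    rw [map_one, one_v, TT_zero]
  mul_mem' := by
    rintro a b ⟨ha, ha'⟩ ⟨hb, hb'⟩
    refine ⟨by rw [map_mul, mul_n, ha, hb]; simp, fun p hp => ?_⟩
    rw [map_mul, mul_v, ha, tr_zero, one_mul, TT_add, ha' p hp, hb' p hp, add_zero]
  inv_mem' := by
    rintro a ⟨ha, ha'⟩
    refine ⟨by rw [map_inv, inv_n, ha]; simp, fun p hp => ?_⟩
    rw [map_inv, inv_v, ha, neg_zero, tr_zero, one_mul, TT_neg, ha' p hp, neg_zero]

lemma mem_KK (h : H) : h ∈ KK H ι x F' ↔ ((ι h).n = 0 ∧ ∀ p ∈ LL F' x.n, TT (ι h).v p = 0) :=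
  Iff.rfl

theorem np_main (hι : Function.Injective ι) (z : HH) (hz : z.n = x.n)
    (hF1 : ∀ p, x.m p ≠ 0 → p ∈ F') (hF2 : ∀ p, z.m p ≠ 0 → p ∈ F')
    (hgen : ∀ h : H, ι h ∈ Subgroup.closure ({x, z} : Set HH)) (x' : H) (hx' : ι x' = x) :
    NilPolyByFin H := by
  classical
  set F := (z.v - x.v).coeff.support with hF
  have hE : ∀ h : H, EE F F' x (ι h) := fun h => EE_closure x z F' hz hF1 hF2 _ (hgen h)
  obtain ⟨N, hN, hN1⟩ := exists_period2 F F' x.n
  have hper : ∀ b : H, (ι b).n = 0 → ∀ p ∈ LL F' x.n,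
      TT (ι b).v (p + (N : ℤ) • x.n) = TT (ι b).v p := by
    intro b hb p hp
    by_cases hn : x.n = 0
    · rw [hn, smul_zero, add_zero]
    · obtain ⟨⟨i, hi1, hi2⟩, _⟩ := hE b
      rw [hb] at hi1
      have hi0 : i = 0 := by
        rcases smul_eq_zero.mp hi1.symm with h | h
        · exact h
        · exact absurd h hn
      rw [hi0, zpow_zero, one_v, sub_zero] at hi2
      exact hN1 _ hi2 p hp
  have hKn : (KK H ι x F').Normal := by
    constructor
    rintro h ⟨h1, h2⟩ q
    rw [mem_KK, map_mul, map_mul, map_inv]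
    refine ⟨conj_n _ _ h1, fun p hp => ?_⟩
    rw [conj_v _ _ h1, TT_tr]
    obtain ⟨⟨i, hi1, _⟩, _⟩ := hE q
    rw [hi1]
    exact h2 _ (LL_shift hp i)
  have hcomm : ∀ a b : KK H ι x F', a * b = b * a := by
    intro a b
    apply Subtype.ext
    apply hι
    obtain ⟨ha1, ha2⟩ := (mem_KK H ι x F' (a : H)).mp a.2
    obtain ⟨hb1, hb2⟩ := (mem_KK H ι x F' (b : H)).mp b.2
    show ι ((a : H) * (b : H)) = ι ((b : H) * (a : H))
    rw [map_mul, map_mul]
    have key : ∀ c d : H, (∀ p ∈ LL F' x.n, TT (ι c).v p = 0) → ∀ g,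
        sgn (TT (ι c).v g) * (ι d).m g = (ι d).m g := by
      intro c d hc g
      by_cases h0 : (ι d).m g = 0
      · rw [h0, mul_zero]
      · have h1 := (hE d).2 g h0
        rw [hc g h1, sgn_zero, one_mul]
    ext1
    · funext g
      rw [mul_m, mul_m, ha1, hb1, sub_zero, key a b ha2 g, key b a hb2 g, add_comm]
    · rw [mul_v, mul_v, ha1, hb1, tr_zero]; ring
    · rw [mul_n, mul_n, add_comm]
  refine ⟨KK H ι x F', hKn, ?_, ?_⟩
  · let _ : CommGroup (KK H ι x F') := { (inferInstance : Group (KK H ι x F')) with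
      mul_comm := hcomm }
    exact CommGroup.isNilpotent
  · set BH : Subgroup H := (nHom.comp ι).ker with hBH
    have hBH' : ∀ b : H, b ∈ BH ↔ (ι b).n = 0 := by
      intro b
      rw [hBH, MonoidHom.mem_ker]
      rfl
    refine polyByFin_of _ (BH.map (QuotientGroup.mk' (KK H ι x F')))
      (Subgroup.Normal.map inferInstance _ (QuotientGroup.mk'_surjective _)) ?_
      (QuotientGroup.mk' (KK H ι x F') x') ?_
    · -- finiteness
      set D : Finset (ℤ × ℤ) := (F' ×ˢ Finset.range N).image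
        (fun p => p.1 + (p.2 : ℤ) • x.n) with hD
      set f : BH → (D → ZMod 2) := fun b d => TT (ι (b : H)).v (d : ℤ × ℤ) with hf
      have hfac : ∀ b b' : BH, f b = f b' →
          (QuotientGroup.mk' (KK H ι x F') (b : H)) = QuotientGroup.mk' (KK H ι x F') (b' : H) := by
        intro b b' hbb
        have hb := (hBH' b).mp b.2
        have hb' := (hBH' b').mp b'.2
        rw [QuotientGroup.mk'_apply, QuotientGroup.mk'_apply, QuotientGroup.eq, mem_KK]
        refine ⟨by rw [map_mul, map_inv, mul_n, inv_n, hb, hb']; simp, ?_⟩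
        rintro p ⟨c, hc, j, rfl⟩
        have hred : ∀ a : H, (ι a).n = 0 →
            TT (ι a).v (c + j • x.n) = TT (ι a).v (c + (((j % (N : ℤ)).toNat : ℕ) : ℤ) • x.n) := by
          intro a ha
          have hP : Function.Periodic (fun i : ℤ => TT (ι a).v (c + i • x.n)) (N : ℤ) := by
            intro i
            simp only
            have := hper a ha (c + i • x.n) ⟨c, hc, i, rfl⟩
            rw [add_smul, ← add_assoc]
            exact this
          have h1 : TT (ι a).v (c + (j % (N : ℤ) + j / (N : ℤ) * (N : ℤ)) • x.n) =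
              TT (ι a).v (c + (j % (N : ℤ)) • x.n) := (hP.int_mul (j / (N : ℤ))) (j % (N : ℤ))
          have hNpos : (0 : ℤ) < N := by exact_mod_cast hN
          rw [Int.toNat_of_nonneg (Int.emod_nonneg _ hNpos.ne')]
          have h2 : j % (N : ℤ) + j / (N : ℤ) * (N : ℤ) = j := by
            have := Int.emod_add_mul_ediv j (N : ℤ)
            linarith
          rw [h2] at h1
          exact h1
        have hmem : (c + (((j % (N : ℤ)).toNat : ℕ) : ℤ) • x.n) ∈ D := by
          rw [hD, Finset.mem_image]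
          refine ⟨(c, (j % (N : ℤ)).toNat), ?_, rfl⟩
          rw [Finset.mem_product, Finset.mem_range]
          refine ⟨hc, ?_⟩
          have hNpos : (0 : ℤ) < N := by exact_mod_cast hN
          have h3 := Int.emod_lt_of_pos j hNpos
          have h4 := Int.emod_nonneg j hNpos.ne'
          simp only
          omega
        have h5 := congrFun hbb ⟨_, hmem⟩
        simp only [hf] at h5
        rw [map_mul, map_inv, mul_v, inv_v, inv_n, hb, neg_zero, tr_zero, one_mul, one_mul, TT_add,
          TT_neg, hred _ hb, hred _ hb', h5]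
        ring
      have hsurj : Function.Surjective (fun y : Set.range f =>
          (⟨QuotientGroup.mk' (KK H ι x F') ((y.2.choose : BH) : H),
            Subgroup.mem_map_of_mem _ (y.2.choose).2⟩ :
              BH.map (QuotientGroup.mk' (KK H ι x F')))) := by
        rintro ⟨_, b, hb, rfl⟩
        refine ⟨⟨f ⟨b, hb⟩, ⟨b, hb⟩, rfl⟩, ?_⟩
        apply Subtype.ext
        exact hfac _ ⟨b, hb⟩ (⟨⟨b, hb⟩, rfl⟩ : ∃ y, f y = f ⟨b, hb⟩).choose_spec
      exact Finite.of_surjective _ hsurj
    · intro w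
      obtain ⟨h, rfl⟩ := QuotientGroup.mk'_surjective (KK H ι x F') w
      obtain ⟨⟨j, hj, _⟩, _⟩ := hE h
      refine ⟨QuotientGroup.mk' _ (h * x' ^ (-j)), ?_, j, ?_⟩
      · apply Subgroup.mem_map_of_mem
        rw [hBH', map_mul, map_zpow, hx', mul_n, hj, zpow_n, neg_smul]
        abel
      · rw [← map_zpow, ← map_mul, mul_assoc, ← zpow_add, neg_add_cancel, zpow_zero, mul_one]

end main

/-- Elements with finite support in the first component. -/
noncomputable def FS : Subgroup HH where
  carrier := {g | {p | g.m p ≠ 0}.Finite}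
  one_mem' := by
    have : {p | (1 : HH).m p ≠ 0} = ∅ := by
      ext p; simp
    show {p | (1 : HH).m p ≠ 0}.Finite
    rw [this]; exact Set.finite_empty
  mul_mem' := by
    intro a b ha hb
    show {p | (a * b).m p ≠ 0}.Finite
    have h1 : {p | a.m p ≠ 0}.Finite := ha
    have h2 : {p | b.m p ≠ 0}.Finite := hb
    refine (h1.union (h2.image (fun p => p + a.n))).subset ?_
    intro p hp
    have hp' : (a * b).m p ≠ 0 := hp
    rw [mul_m] at hp'
    by_cases h0 : a.m p = 0
    · right
      refine ⟨p - a.n, ?_, by simp⟩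
      intro h3
      apply hp'
      rw [h0, h3]; simp
    · left; exact h0
  inv_mem' := by
    intro a ha
    show {p | (a⁻¹).m p ≠ 0}.Finite
    have h1 : {p | a.m p ≠ 0}.Finite := ha
    refine (h1.image (fun p => p - a.n)).subset ?_
    intro p hp
    have hp' : (a⁻¹).m p ≠ 0 := hp
    rw [inv_m] at hp'
    refine ⟨p + a.n, ?_, by simp⟩
    intro h3
    apply hp'
    rw [h3]; simp

theorem infStarNP_of_le (G : Subgroup HH) (hG : G ≤ FS) : InfStarNP G := by
  classical
  intro S hS
  obtain ⟨x, hx, y, hy, hxy⟩ := hS.nontrivial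
  refine ⟨x, hx, y, hy, hxy, ?_⟩
  set z : G := y⁻¹ * x * y with hzdef
  have hfx : {p | (x : HH).m p ≠ 0}.Finite := hG x.2
  have hfz : {p | (z : HH).m p ≠ 0}.Finite := hG z.2
  refine np_main _ (G.subtype.comp (Subgroup.subtype _)) (x : HH)
    (hfx.toFinset ∪ hfz.toFinset) ?_ (z : HH) ?_ ?_ ?_ ?_
    ⟨x, Subgroup.subset_closure (by simp)⟩ rfl
  · exact (Subgroup.subtype_injective _).comp (Subgroup.subtype_injective _)
  · rw [hzdef]
    simp only [Subgroup.coe_mul, Subgroup.coe_inv, mul_n, inv_n]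
    abel
  · intro p hp
    rw [Finset.mem_union]; left
    rw [Set.Finite.mem_toFinset]; exact hp
  · intro p hp
    rw [Finset.mem_union]; right
    rw [Set.Finite.mem_toFinset]; exact hp
  · intro h
    have h1 : (G.subtype ((Subgroup.subtype _) h)) ∈
        (Subgroup.closure ({x, z} : Set G)).map G.subtype :=
      Subgroup.mem_map_of_mem _ h.2
    rw [MonoidHom.map_closure, Set.image_pair] at h1
    exact h1

end Pool.Agent.R688.NP
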