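import Mathlib
import Pool.Agent.R688.NP.Star

namespace Pool.Agent.R688.NP

open scoped commutatorElement

open Pool.Agent.R688.EN (V tr TT UU tr_add tr_zero tr_neg_mul TT_add TT_neg TT_tr TT_zero UU_tr
  mem_UU ff ff_point two_eq TT_single)

/-- generator of the module -/
noncomputable def gM : HH := ⟨fun p => if p = 0 then 1 else 0, 0, 0⟩
/-- generator of the group ring -/
noncomputable def gE : HH := ⟨0, 1, 0⟩
/-- first translation -/
noncomputable def gT1 : HH := ⟨0, 0, (1, 0)⟩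
/-- second translation -/
noncomputable def gT2 : HH := ⟨0, 0, (0, 1)⟩

/-- The group of the counterexample. -/
noncomputable def G0 : Subgroup HH := Subgroup.closure {gM, gE, gT1, gT2}

lemma gM_mem : gM ∈ G0 := Subgroup.subset_closure (by simp)
lemma gE_mem : gE ∈ G0 := Subgroup.subset_closure (by simp)
lemma gT1_mem : gT1 ∈ G0 := Subgroup.subset_closure (by simp)
lemma gT2_mem : gT2 ∈ G0 := Subgroup.subset_closure (by simp)

lemma G0_le : G0 ≤ FS := by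
  unfold G0
  rw [Subgroup.closure_le]
  have h0 : ∀ g : HH, g.m = 0 → g ∈ FS := by
    intro g hg
    show {p | g.m p ≠ 0}.Finite
    have : {p | g.m p ≠ 0} = ∅ := by
      ext p; simp [hg]
    rw [this]; exact Set.finite_empty
  rintro g (rfl | rfl | rfl | rfl)
  · show {p | gM.m p ≠ 0}.Finite
    refine (Set.finite_singleton (0 : ℤ × ℤ)).subset ?_
    intro p hp
    by_contra h
    apply hp
    simp only [gM]
    rw [if_neg (by simpa using h)]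
  · exact h0 _ rfl
  · exact h0 _ rfl
  · exact h0 _ rfl

/-- Translations. -/
noncomputable def ZV : Subgroup HH where
  carrier := {g | g.v = 0 ∧ g.m = 0}
  one_mem' := ⟨rfl, rfl⟩
  mul_mem' := by
    rintro a b ⟨ha, ha'⟩ ⟨hb, hb'⟩
    refine ⟨by rw [mul_v, ha, hb]; simp, ?_⟩
    funext g
    rw [mul_m, ha', hb']; simp
  inv_mem' := by
    rintro a ⟨ha, ha'⟩
    refine ⟨by rw [inv_v, ha]; simp, ?_⟩
    funext g
    rw [inv_m, ha']; simp

lemma exists_trans (a : ℤ × ℤ) : ∃ g ∈ G0, g.v = 0 ∧ g.m = 0 ∧ g.n = a := by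
  have h : gT1 ^ a.1 * gT2 ^ a.2 ∈ ZV :=
    ZV.mul_mem (ZV.zpow_mem ⟨rfl, rfl⟩ _) (ZV.zpow_mem ⟨rfl, rfl⟩ _)
  refine ⟨gT1 ^ a.1 * gT2 ^ a.2, G0.mul_mem (G0.zpow_mem gT1_mem _) (G0.zpow_mem gT2_mem _),
    h.1, h.2, ?_⟩
  rw [mul_n, zpow_n, zpow_n]
  ext <;> simp [gT1, gT2]

lemma conj_m (g h : HH) (hv : g.v = 0) (hm : g.m = 0) (p : ℤ × ℤ) :
    (g * h * g⁻¹).m p = h.m (p - g.n) := by
  rw [mul_m, mul_m, inv_m, hm, hv, TT_zero, sgn_zero]; simp

lemma ff_np (P : ℕ) (hP : 0 < P) : ∃ b : ℤ × ℤ, ff b ≠ ff (b + ((P : ℤ), 0)) := by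
  obtain ⟨a, _, ha⟩ := ff_point P 1 hP one_pos
  by_contra hcon
  push Not at hcon
  have h1 := hcon a
  have h2 := hcon (a + (((1 : ℕ) : ℤ), 0))
  have h3 : a + (((1 : ℕ) : ℤ), 0) + ((P : ℤ), 0) = a + (((1 + P : ℕ) : ℤ), 0) := by
    ext
    · push_cast; simp; ring
    · simp
  rw [h3] at h2
  rw [← h1, ← h2] at ha
  have h4 : ∀ p q : ZMod 2, p + p + q + q ≠ 1 := by decide
  exact h4 _ _ ha

lemma ff_ne (i j : ℕ) (hij : i ≠ j) : ∃ g : ℤ × ℤ, ff (((j : ℤ), 0) - g) ≠ ff (((i : ℤ), 0) - g) := by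
  rcases lt_or_gt_of_ne hij with h | h
  · obtain ⟨b, hb⟩ := ff_np (j - i) (by omega)
    refine ⟨((i : ℤ), 0) - b, ?_⟩
    have e1 : ((i : ℤ), (0 : ℤ)) - (((i : ℤ), (0 : ℤ)) - b) = b := by abel
    have e2 : ((j : ℤ), (0 : ℤ)) - (((i : ℤ), (0 : ℤ)) - b) = b + (((j - i : ℕ) : ℤ), 0) := by
      ext
      · simp; omega
      · simp
    rw [e1, e2]; exact hb.symm
  · obtain ⟨b, hb⟩ := ff_np (i - j) (by omega)
    refine ⟨((j : ℤ), 0) - b, ?_⟩
    have e1 : ((j : ℤ), (0 : ℤ)) - (((j : ℤ), (0 : ℤ)) - b) = b := by abel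
    have e2 : ((i : ℤ), (0 : ℤ)) - (((j : ℤ), (0 : ℤ)) - b) = b + (((i - j : ℕ) : ℤ), 0) := by
      ext
      · simp; omega
      · simp
    rw [e1, e2]; exact hb

lemma TT_tr0 (b g : ℤ × ℤ) : TT (tr b) g = ff (b - g) := by
  unfold tr
  rw [TT_single, one_mul]

lemma pow_six (b : HH) (hb : b.n = 0) : b ^ 6 = 1 := by
  have h2 : (2 : V) = 0 := two_eq
  have e : b ^ 6 = b ^ 2 * b ^ 2 * b ^ 2 := by
    rw [← pow_add, ← pow_add]
  have hv : (b ^ 2).v = 0 := by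
    rw [pow_two, mul_v, hb, tr_zero]
    linear_combination b.v * h2
  have hn : (b ^ 2).n = 0 := by
    rw [pow_two, mul_n, hb]; simp
  rw [e]
  generalize b ^ 2 = c at hv hn
  ext1
  · funext g
    rw [mul_m, mul_m, mul_v, mul_n, hv, hn, TT_zero, sgn_zero, tr_zero, mul_zero, add_zero,
      TT_zero, sgn_zero, sub_zero, add_zero, sub_zero, one_m]
    generalize c.m g = z
    revert z; decide
  · rw [mul_v, mul_v, mul_n, hv]; simp
  · rw [mul_n, mul_n, hn]; simp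

lemma conj_m2 (l d : HH) (hdv : d.v = 0) (hdn : d.n = 0) (hln : l.n = 0) (g : ℤ × ℤ) :
    (l * d * l⁻¹).m g = sgn (TT l.v g) * d.m g := by
  have hv : (l * d).v = l.v := by rw [mul_v, hdv, mul_zero, add_zero]
  have hn : (l * d).n = 0 := by rw [mul_n, hdn, hln, add_zero]
  rw [mul_m (l * d) l⁻¹ g, hv, hn, mul_m l d g, inv_m, hln, sub_zero, add_zero]
  linear_combination (- l.m g) * sgn_sq (TT l.v g)

/-- Commutator with an element of the module. -/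
lemma comm_m (c l : HH) (hcv : c.v = 0) (hcn : c.n = 0) (hln : l.n = 0) (g : ℤ × ℤ)
    (hl : TT l.v g = 1) : (⁅c, l⁆).v = 0 ∧ (⁅c, l⁆).n = 0 ∧ (⁅c, l⁆).m g = - c.m g := by
  have e : ⁅c, l⁆ = c * (l * c⁻¹ * l⁻¹) := by
    rw [commutatorElement_def]; group
  have hiv : (c⁻¹).v = 0 := by rw [inv_v, hcv, mul_zero, neg_zero]
  have hin : (c⁻¹).n = 0 := by rw [inv_n, hcn, neg_zero]
  rw [e]
  refine ⟨?_, ?_, ?_⟩
  · rw [mul_v, conj_v _ _ hin, hiv, hcv]; simp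
  · rw [mul_n, conj_n _ _ hin, hcn, add_zero]
  · rw [mul_m, hcn, sub_zero, conj_m2 l c⁻¹ hiv hin hln, hcv, TT_zero, sgn_zero, hl, inv_m, hcv,
      hcn, add_zero, TT_zero, sgn_zero]
    have h1 : sgn 1 = -1 := by decide
    rw [h1]
    generalize c.m g = z
    revert z; decide

theorem not_np : ¬ NilPolyByFin G0 := by
  rintro ⟨K, hK, hnil, hpf⟩
  obtain ⟨k, hk⟩ := Subgroup.nilpotent_iff_lowerCentralSeries.mp hnil
  set φ : G0 →* G0 ⧸ K := QuotientGroup.mk' K with hφ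
  set B0 : Subgroup G0 := (nHom.comp G0.subtype).ker with hB0
  have hB0' : ∀ b : G0, b ∈ B0 ↔ (b : HH).n = 0 := by
    intro b
    rw [hB0, MonoidHom.mem_ker]
    rfl
  have hfin : Finite (B0.map φ) := by
    apply polyByFin_finite 6 (by norm_num) hpf
    rintro _ ⟨b, hb, rfl⟩
    rw [← map_pow]
    have : b ^ 6 = 1 := by
      apply Subtype.ext
      simpa using pow_six (b : HH) ((hB0' b).mp hb)
    rw [this, map_one]
  have hpig : ∀ w : ℕ → G0, (∀ i, (w i : HH).n = 0) → ∃ i j : ℕ, i ≠ j ∧ (w i)⁻¹ * w j ∈ K := by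
    intro w hw
    obtain ⟨i, j, hij, he⟩ := Finite.exists_ne_map_eq_of_infinite
      (fun i : ℕ => (⟨φ (w i), Subgroup.mem_map_of_mem _ ((hB0' _).mpr (hw i))⟩ : B0.map φ))
    refine ⟨i, j, hij, ?_⟩
    have h1 := congrArg Subtype.val he
    simp only at h1
    exact QuotientGroup.eq.mp h1
  choose tt htt1 htt2 htt3 htt4 using exists_trans
  -- the element l
  obtain ⟨i, j, hij, hl⟩ := hpig
    (fun i => ⟨tt ((i : ℤ), 0) * gE * (tt ((i : ℤ), 0))⁻¹,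
      G0.mul_mem (G0.mul_mem (htt1 _) gE_mem) (G0.inv_mem (htt1 _))⟩)
    (fun i => conj_n _ _ rfl)
  set l : HH := (tt ((i : ℤ), 0) * gE * (tt ((i : ℤ), 0))⁻¹)⁻¹ *
    (tt ((j : ℤ), 0) * gE * (tt ((j : ℤ), 0))⁻¹) with hldef
  have hln : l.n = 0 := by
    rw [hldef, mul_n, inv_n, conj_n _ _ rfl, conj_n _ _ rfl]; simp
  have hlv : l.v = tr ((j : ℤ), 0) - tr ((i : ℤ), 0) := by
    rw [hldef, mul_v, inv_v, inv_n, conj_n _ _ rfl, conj_v _ _ rfl, conj_v _ _ rfl, htt4, htt4,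
      neg_zero, tr_zero]
    have : gE.v = 1 := rfl
    rw [this]; ring
  -- the element of the module
  obtain ⟨i', j', hij', hk'⟩ := hpig
    (fun i => ⟨tt ((i : ℤ), 0) * gM * (tt ((i : ℤ), 0))⁻¹,
      G0.mul_mem (G0.mul_mem (htt1 _) gM_mem) (G0.inv_mem (htt1 _))⟩)
    (fun i => conj_n _ _ rfl)
  set c : HH := (tt ((i' : ℤ), 0) * gM * (tt ((i' : ℤ), 0))⁻¹)⁻¹ *
    (tt ((j' : ℤ), 0) * gM * (tt ((j' : ℤ), 0))⁻¹) with hcdef
  have hcn : c.n = 0 := by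
    rw [hcdef, mul_n, inv_n, conj_n _ _ rfl, conj_n _ _ rfl]; simp
  have hcv : c.v = 0 := by
    rw [hcdef, mul_v, inv_v, inv_n, conj_n _ _ rfl, conj_v _ _ rfl, conj_v _ _ rfl]
    have : gM.v = 0 := rfl
    rw [this]; simp
  have hcm : c.m ((j' : ℤ), 0) = 1 := by
    rw [hcdef, mul_m, inv_m, inv_v, inv_n, conj_n _ _ rfl, conj_v _ _ rfl, conj_m _ _ (htt2 _) (htt3 _),
      conj_m _ _ (htt2 _) (htt3 _), htt4, htt4]
    have h1 : gM.v = 0 := rfl
    rw [h1]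
    have h2 : ((j' : ℤ), (0 : ℤ)) + 0 - ((i' : ℤ), (0 : ℤ)) ≠ 0 := by
      intro h
      have := congrArg Prod.fst h
      simp at this
      omega
    have h3 : ((j' : ℤ), (0 : ℤ)) - -0 - ((j' : ℤ), (0 : ℤ)) = 0 := by simp
    have h4 : gM.m (((j' : ℤ), (0 : ℤ)) + 0 - ((i' : ℤ), (0 : ℤ))) = 0 := by
      simp only [gM]; rw [if_neg h2]
    have h5 : gM.m (((j' : ℤ), (0 : ℤ)) - -0 - ((j' : ℤ), (0 : ℤ))) = 1 := by
      simp only [gM]; rw [if_pos h3]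
    rw [h4, h5]
    simp only [mul_zero, neg_zero, TT_zero, sgn_zero, mul_one, zero_add]
  obtain ⟨g, hg⟩ := ff_ne i j hij
  have hTl : TT l.v g = 1 := by
    rw [hlv, sub_eq_add_neg, TT_add, TT_neg, TT_tr0, TT_tr0]
    have h4 : ∀ p q : ZMod 2, p ≠ q → p + -q = 1 := by decide
    exact h4 _ _ hg
  -- translate the module element
  set a : ℤ × ℤ := g - ((j' : ℤ), 0) with ha
  set c' : G0 := ⟨tt a, htt1 a⟩ * ⟨c, G0.mul_mem (G0.inv_mem (G0.mul_mem (G0.mul_mem (htt1 _) gM_mem)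
      (G0.inv_mem (htt1 _)))) (G0.mul_mem (G0.mul_mem (htt1 _) gM_mem) (G0.inv_mem (htt1 _)))⟩ *
      (⟨tt a, htt1 a⟩)⁻¹ with hc'
  have hc'K : c' ∈ K := hK.conj_mem _ hk' _
  have hc'e : (c' : HH) = tt a * c * (tt a)⁻¹ := rfl
  have hc'n : (c' : HH).n = 0 := by rw [hc'e]; exact conj_n _ _ hcn
  have hc'v : (c' : HH).v = 0 := by
    rw [hc'e, conj_v _ _ hcn, hcv, mul_zero]
  have hc'm : (c' : HH).m g = 1 := by
    rw [hc'e, conj_m _ _ (htt2 _) (htt3 _), htt4, ha]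
    have : g - (g - ((j' : ℤ), (0 : ℤ))) = ((j' : ℤ), 0) := by abel
    rw [this]; exact hcm
  set lK : K := ⟨_, hl⟩ with hlK
  have hlKe : ((lK : G0) : HH) = l := rfl
  set cs : ℕ → K := fun r => Nat.rec ⟨c', hc'K⟩ (fun _ z => ⁅z, lK⁆) r with hcs
  have hcs1 : ∀ r, cs (r + 1) = ⁅cs r, lK⁆ := fun r => rfl
  have hcs2 : ∀ r, ((cs r : G0) : HH).v = 0 ∧ ((cs r : G0) : HH).n = 0 ∧
      ((cs r : G0) : HH).m g ≠ 0 := by
    intro r
    induction r with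
    | zero => exact ⟨hc'v, hc'n, by rw [show ((cs 0 : G0) : HH) = (c' : HH) from rfl, hc'm]; decide⟩
    | succ r ih =>
      obtain ⟨h1, h2, h3⟩ := ih
      have e : ((cs (r + 1) : G0) : HH) = ⁅((cs r : G0) : HH), l⁆ := by
        rw [hcs1]; rfl
      obtain ⟨f1, f2, f3⟩ := comm_m ((cs r : G0) : HH) l h1 h2 hln g hTl
      rw [e]
      refine ⟨f1, f2, ?_⟩
      rw [f3]
      exact neg_ne_zero.mpr h3
  have hcs3 : ∀ r, cs r ∈ (⊤ : Subgroup K).lowerCentralSeries r := by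
    intro r
    induction r with
    | zero => exact Subgroup.mem_top _
    | succ r ih =>
      rw [hcs1, Subgroup.lowerCentralSeries_succ]
      exact Subgroup.commutator_mem_commutator ih (Subgroup.mem_top _)
  have h6 := hcs3 k
  rw [hk, Subgroup.mem_bot] at h6
  apply (hcs2 k).2.2
  rw [h6]; rfl

end Pool.Agent.R688.NP
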