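import Mathlib
import Pool.Agent.R688.NP.Neg

namespace Pool.Agent.R688.NP

open scoped commutatorElement

open Pool.Agent.R688.EN (V tr TT tr_zero TT_zero)

/-- The base. -/
noncomputable def KN : Subgroup HH where
  carrier := {g | g.n = 0}
  one_mem' := rfl
  mul_mem' := by
    intro a b ha hb
    simp only [Set.mem_ofPred_eq] at ha hb ⊢
    rw [mul_n, ha, hb]; simp
  inv_mem' := by
    intro a ha
    simp only [Set.mem_ofPred_eq] at ha ⊢
    rw [inv_n, ha]; simp

/-- The module. -/
noncomputable def KA : Subgroup HH where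
  carrier := {g | g.n = 0 ∧ g.v = 0}
  one_mem' := ⟨rfl, rfl⟩
  mul_mem' := by
    rintro a b ⟨ha, ha'⟩ ⟨hb, hb'⟩
    refine ⟨by rw [mul_n, ha, hb]; simp, by rw [mul_v, ha', hb']; simp⟩
  inv_mem' := by
    rintro a ⟨ha, ha'⟩
    refine ⟨by rw [inv_n, ha]; simp, by rw [inv_v, ha']; simp⟩

lemma derived_one : derivedSeries HH 1 ≤ KN := by
  rw [derivedSeries_succ, Subgroup.commutator_le]
  intro p _ q _
  show (⁅p, q⁆).n = 0
  rw [commutatorElement_def, mul_n, mul_n, mul_n, inv_n, inv_n]
  abel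

lemma derived_two : derivedSeries HH 2 ≤ KA := by
  rw [derivedSeries_succ, Subgroup.commutator_le]
  intro p hp q hq
  have hp' : p.n = 0 := derived_one hp
  have hq' : q.n = 0 := derived_one hq
  refine ⟨?_, ?_⟩
  · rw [commutatorElement_def, mul_n, mul_n, mul_n, inv_n, inv_n]
    abel
  · rw [commutatorElement_def, mul_v, mul_v, mul_v, mul_n, mul_n, inv_v, inv_v, inv_n, hp', hq']
    simp [tr_zero, hp', hq']

lemma derived_three : derivedSeries HH 3 ≤ ⊥ := by
  rw [derivedSeries_succ, Subgroup.commutator_le]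
  intro p hp q hq
  obtain ⟨hp1, hp2⟩ := derived_two hp
  obtain ⟨hq1, hq2⟩ := derived_two hq
  rw [Subgroup.mem_bot, commutatorElement_eq_one_iff_mul_comm]
  ext1
  · funext g
    rw [mul_m, mul_m, hp1, hq1, hp2, hq2, TT_zero, sgn_zero]
    simp [add_comm]
  · rw [mul_v, mul_v, hp2, hq2]; simp
  · rw [mul_n, mul_n, add_comm]

instance : Group.IsSolvable HH := (Group.isSolvable_def HH).mpr ⟨3, le_bot_iff.mp derived_three⟩

/-- The counterexample. -/
theorem main : ∃ (G : Type) (_ : Group G), Group.FG G ∧ Group.IsSolvable G ∧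
    InfStarNP G ∧ ¬ NilPolyByFin G := by
  refine ⟨G0, inferInstance, ?_, inferInstance, infStarNP_of_le G0 G0_le, not_np⟩
  exact Group.closure_finite_fg _

end Pool.Agent.R688.NP
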